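import Pool.Agent.P.MP_ab74d4_pr.Conv

/-!
Q1 of MP_ab74d4_pr: for i.i.d. centred variance-one coefficients and every `γ > 0`, the random
measures `μ_n^γ` converge almost surely, and in law, for the weak (= vague) topology on finite
measures on the circle, to a random finite measure.
-/

namespace Pool.Agent.Results.MP_ab74d4_pr.Convergence

open MeasureTheory Filter Topology Pool.Agent.P.MP_ab74d4_pr
open scoped BoundedContinuousFunction

theorem result {Ω : Type*} [MeasurableSpace Ω] (P : Measure Ω) (ξ : ℕ → Ω → ℂ)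
    (hξ : IsCoeff P ξ) (γ : ℝ) (hγ : 0 < γ) :
    ∃ (M : ℕ → Ω → FiniteMeasure UnitAddCircle) (L : Ω → FiniteMeasure UnitAddCircle),
      (∀ n ω, (M n ω : Measure UnitAddCircle) = chaos P ξ γ n ω) ∧ Measurable L ∧
      (∀ᵐ ω ∂P, Tendsto (fun n => M n ω) atTop (𝓝 (L ω))) ∧
      ∀ F : FiniteMeasure UnitAddCircle →ᵇ ℝ,
        (∀ n, Measurable fun ω => F (M n ω)) ∧ AEMeasurable (fun ω => F (L ω)) P ∧
        Tendsto (fun n => ∫ ω, F (M n ω) ∂P) atTop (𝓝 (∫ ω, F (L ω) ∂P)) :=
  hξ.main_conv hγ.le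

end Pool.Agent.Results.MP_ab74d4_pr.Convergence
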