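import Pool.Agent.P.MP_ab74d4_pr.Examples

/-!
Q2 of MP_ab74d4_pr for `0 < γ < √2`: the limit measure has Hausdorff dimension `1 - γ^2/4 > 0`,
the Gaussian value, exactly when `E |ξ|^2 log⁺ |ξ| < ∞`; otherwise the limit is the zero measure,
of dimension `0`.  The second case occurs, so Q2 fails for general coefficients.
-/

namespace Pool.Agent.Results.MP_ab74d4_pr.Dimension

open MeasureTheory ProbabilityTheory Pool.Agent.P.MP_ab74d4_pr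

theorem result (γ : ℝ) (hγ : 0 < γ) (hγ2 : γ ^ 2 < 2) :
    (∀ (Ω : Type) [MeasurableSpace Ω] (P : Measure Ω) (ξ : ℕ → Ω → ℂ), IsCoeff P ξ →
      (∃ L, IsLimit P ξ γ L) ∧
      (∀ L, IsLimit P ξ γ L →
        (LogMoment P ξ → ∀ᵐ ω ∂P, mdim (L ω) = ENNReal.ofReal (1 - γ ^ 2 / 4)) ∧
        (¬ LogMoment P ξ → ∀ᵐ ω ∂P, L ω = 0 ∧ mdim (L ω) = 0)) ∧
      (IsGaussian (P.map (ξ 0)) → LogMoment P ξ)) ∧
    (IsCoeff (iid (gaussianReal 0 1)) coord ∧ LogMoment (iid (gaussianReal 0 1)) coord) ∧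
    ∃ ν : Measure ℝ, IsCoeff (iid ν) coord ∧ ¬ LogMoment (iid ν) coord := by
  refine ⟨fun Ω _ P ξ h => ⟨?_, fun L hL => h.dichotomy hγ hγ2 hL, h.logMoment_of_gaussian⟩,
    ⟨isCoeff_gauss, logMoment_gauss⟩, heavy, isCoeff_heavy, not_logMoment_heavy⟩
  obtain ⟨M, L, hM, -, hL, -⟩ := h.main_conv hγ.le
  exact ⟨L, M, hM, hL⟩

end Pool.Agent.Results.MP_ab74d4_pr.Dimension
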